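import Pool.Agent.MP_161132_co.H85.Constr

namespace Pool.Agent.Results.MP_161132_co.LinearBound

open Pool.Agent.MP_161132_co.H85

/-- For every `k ≥ 2` and all large `n` a `k`-saturated graph on `n` vertices exists and
`h(n,k) ≤ (5/2) n`; the constant does not depend on `k`. -/
theorem result : ∀ k : ℕ, 2 ≤ k → ∃ N : ℕ, ∀ n : ℕ, N ≤ n →
    (∃ G : SimpleGraph (Fin n), Saturated k G) ∧ (h n k : ℝ) ≤ 5 / 2 * (n : ℝ) := by
  intro k hk
  obtain ⟨N, hN⟩ := exists_graph k hk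
  refine ⟨N, fun n hn => ?_⟩
  obtain ⟨G, hG, hE⟩ := hN n hn
  refine ⟨⟨G, hG⟩, ?_⟩
  have h1 : h n k ≤ G.edgeSet.ncard := Nat.sInf_le ⟨G, hG, rfl⟩
  have h2 : 2 * h n k ≤ 5 * n := by omega
  have h3 : (2 : ℝ) * (h n k : ℝ) ≤ 5 * (n : ℝ) := by exact_mod_cast h2
  linarith

end Pool.Agent.Results.MP_161132_co.LinearBound
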